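import Pool.Agent.W181.RT.Props

/-! The dimensions of the annihilators of the ideals of Hankel minors. -/

set_option autoImplicit false

namespace Pool.Agent.W672.RT

open Pool.Agent.W181.RT

theorem f_orth {ℓ k : ℕ} (f : RR ℓ k →ₗ[ℚ] ℚ)
    (hf : ∀ x : RR ℓ k, f (sig ℓ k x) = (2 : ℚ) ^ (k * ℓ) * f x) {D E : ℕ} (h : D + E ≠ k * ℓ)
    {x y : RR ℓ k} (hx : x ∈ RD ℓ k D) (hy : y ∈ RD ℓ k E) : f (x * y) = 0 := by
  have h1 := RD_mul ℓ k D E x y hx hy
  rw [mem_RD] at h1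
  have h2 := hf (x * y)
  rw [h1, map_smul, smul_eq_mul] at h2
  have h3 : ((2 : ℚ) ^ (D + E) - 2 ^ (k * ℓ)) * f (x * y) = 0 := by
    rw [sub_mul, h2, sub_self]
  rcases mul_eq_zero.1 h3 with h4 | h4
  · exfalso
    apply h
    have h5 : (2 : ℚ) ^ (D + E) = 2 ^ (k * ℓ) := sub_eq_zero.1 h4
    exact (pow_right_injective₀ (by norm_num : (0 : ℚ) < 2) (by norm_num : (2 : ℚ) ≠ 1)) h5
  · exact h4

/-- `f (x * y) = 0` for all `y` if it is so for the homogeneous `y` -/
theorem f_all {ℓ k : ℕ} (hdec : S_DEC) (f : RR ℓ k →ₗ[ℚ] ℚ) (x : RR ℓ k)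
    (h : ∀ E : ℕ, ∀ y ∈ RD ℓ k E, f (x * y) = 0) (y : RR ℓ k) : f (x * y) = 0 := by
  have h1 : (⨆ D : ℕ, RD ℓ k D) ≤ LinearMap.ker (f ∘ₗ LinearMap.mulLeft ℚ x) := by
    refine iSup_le fun E y hy => ?_
    rw [LinearMap.mem_ker]
    exact h E y hy
  exact LinearMap.mem_ker.1 (h1 (hdec ℓ k y))

theorem t_ANN (hdual : S_DUAL) (hdec : S_DEC) (hbound : S_BOUND) : S_ANN := by
  intro ℓ k m hm D
  obtain ⟨f, hf, hnd⟩ := hdual ℓ k
  by_cases hD : D ≤ k * ℓ
  · rw [if_pos hD]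
    obtain ⟨U, hU, hUc, hUle⟩ := hbound ℓ k m hm (k * ℓ - D)
    let Φ : ↥(AnnP ℓ k m ⊓ RD ℓ k D) →ₗ[ℚ] Module.Dual ℚ U :=
      { toFun := fun x => (f ∘ₗ LinearMap.mulLeft ℚ (x : RR ℓ k)) ∘ₗ U.subtype
        map_add' := by
          intro x y
          refine LinearMap.ext fun u => ?_
          simp [add_mul]
        map_smul' := by
          intro c x
          refine LinearMap.ext fun u => ?_
          show f ((c • (x : RR ℓ k)) * (u : RR ℓ k)) = c • f ((x : RR ℓ k) * (u : RR ℓ k))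
          rw [smul_mul_assoc, map_smul] }
    have hΦ : ∀ (x : ↥(AnnP ℓ k m ⊓ RD ℓ k D)) (u : U), Φ x u = f ((x : RR ℓ k) * (u : RR ℓ k)) :=
      fun x u => rfl
    have hinj : Function.Injective Φ := by
      rw [← LinearMap.ker_eq_bot, LinearMap.ker_eq_bot']
      intro x hx
      obtain ⟨x, hxA, hxD⟩ := x
      have h0 : x = 0 := by
        apply hnd
        refine f_all hdec f x fun E y hy => ?_
        by_cases hE : D + E = k * ℓ
        · have hE' : E = k * ℓ - D := by omega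
          subst hE'
          have h1 := hUle hy
          rw [Submodule.mem_sup] at h1
          obtain ⟨u, hu, z, hz, rfl⟩ := h1
          have hxz : x * z = 0 := hxA z hz
          rw [mul_add, hxz, add_zero]
          have h2 := hΦ ⟨x, hxA, hxD⟩ ⟨u, hu⟩
          rw [hx] at h2
          exact h2.symm
        · exact f_orth f hf hE hxD hy
      exact Subtype.ext h0
    calc Module.finrank ℚ ↥(AnnP ℓ k m ⊓ RD ℓ k D) ≤ Module.finrank ℚ (Module.Dual ℚ U) :=
          LinearMap.finrank_le_finrank_of_injective hinj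
      _ = Module.finrank ℚ U := Subspace.dual_finrank_eq
      _ ≤ _ := hUc
  · rw [if_neg hD]
    have h0 : (AnnP ℓ k m ⊓ RD ℓ k D : Submodule ℚ (RR ℓ k)) = ⊥ := by
      rw [eq_bot_iff]
      rintro x ⟨hxA, hxD⟩
      rw [Submodule.mem_bot]
      apply hnd
      refine f_all hdec f x fun E y hy => ?_
      exact f_orth f hf (by omega) hxD hy
    rw [h0, finrank_bot]

end Pool.Agent.W672.RT
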